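import Pool.Agent.Helper80.AT.ChMain

/-! The quotient by a finite group: translations of l2(Y) and the exact isometry. -/

open scoped ENNReal NNReal InnerProductSpace
open MeasureTheory
open Pool.Agent.Helper80.AT

namespace Pool.Agent.Helper56.UD

section

variable {G Y : Type} [Group G] [MulAction G Y]

open Classical in
/-- translation by g as a kernel -/
noncomputable def trKer (g : G) : Ker TG Y where
  k P Q := if g • P = Q then 1 else 0
  smul _ _ _ := rfl
  finrow P := by
    refine (Set.finite_singleton (g • P)).subset ?_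
    intro Q hQ
    by_contra h
    exact hQ (if_neg fun h' => h h'.symm)
  fincol Q := by
    refine (Set.finite_singleton (g⁻¹ • Q)).subset ?_
    intro P hP
    by_contra h
    exact hP (if_neg fun h' => h (by rw [← h']; simp))
  C := 1
  row P := by
    rw [tsum_eq_single (g • P)]
    · simp
    · intro Q hQ
      rw [if_neg fun h => hQ h.symm]
      simp
  col Q := by
    rw [tsum_eq_single (g⁻¹ • Q)]
    · simp
    · intro P hP
      rw [if_neg fun h => hP (by rw [← h]; simp)]
      simp

/-- translation by g on l2(Y) -/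
noncomputable def tr (g : G) : L2 TG Y →L[ℂ] L2 TG Y := (trKer g).op

lemma ev_tr (g : G) (u : L2 TG Y) : ev (tr g u) = fun P => ev u (g • P) := by
  classical
  funext P
  show ((trKer g).op u : Bun TG Y → ℂ) (cls TG Y P) = _
  rw [Ker.op_apply, Ker.fn_cls, finsum_eq_single _ (g • P)]
  · show (if g • P = g • P then (1 : ℂ) else 0) * _ = _
    rw [if_pos rfl, one_mul]
    rfl
  · intro Q hQ
    show (if g • P = Q then (1 : ℂ) else 0) * _ = 0
    rw [if_neg fun h => hQ h.symm, zero_mul]

lemma ev_inj {u v : L2 TG Y} (h : ev u = ev v) : u = v := by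
  apply coe_eq
  intro b
  have := congrFun h b.out
  unfold ev at this
  rwa [cls_out] at this

lemma tr_comm (K : Ker G Y) (g : G) : Commute (tr g) (K.tg.op) := by
  apply ContinuousLinearMap.ext
  intro u
  apply ev_inj
  show ev (tr g (K.tg.op u)) = ev (K.tg.op (tr g u))
  rw [ev_tr, ev_op, ev_op, ev_tr]
  funext P
  unfold Ker.act
  rw [← finsum_comp_equiv (MulAction.toPerm g)]
  refine finsum_congr fun Q => ?_
  rw [MulAction.toPerm_apply, K.smul]

variable (Φ : Subgroup G)

/-- the sum of the translations by the elements of a finite group -/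
noncomputable def av : L2 TG Y →L[ℂ] L2 TG Y := ∑ᶠ η : Φ, tr (η : G)

lemma av_eq [Fintype Φ] : (av Φ : L2 TG Y →L[ℂ] L2 TG Y) = ∑ η : Φ, tr (η : G) :=
  finsum_eq_sum_of_fintype _

lemma av_comm [Finite Φ] (K : Ker G Y) : Commute (av Φ) (K.tg.op) := by
  have := Fintype.ofFinite Φ
  rw [av_eq]
  exact Commute.sum_left _ _ _ fun η _ => tr_comm K _

lemma av_comm_adj [Finite Φ] (K : Ker G Y) :
    Commute (av Φ) (ContinuousLinearMap.adjoint K.tg.op) := by
  rw [adjoint_op]
  exact av_comm Φ K.star

lemma ev_av [Fintype Φ] (u : L2 TG Y) : ev (av Φ u) = fun P => ∑ η : Φ, ev u ((η : G) • P) := by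
  classical
  rw [av_eq]
  have h : ∀ s : Finset Φ, ev ((∑ η ∈ s, tr (η : G)) u : L2 TG Y) =
      fun P => ∑ η ∈ s, ev u ((η : G) • P) := by
    intro s
    induction s using Finset.induction_on with
    | empty =>
      rw [Finset.sum_empty]
      have : (0 : L2 TG Y →L[ℂ] L2 TG Y) u = 0 := rfl
      rw [this, ev_zero]
      funext P
      simp
    | insert η s hη ih =>
      rw [Finset.sum_insert hη]
      rw [_root_.add_apply, ev_add, ih, ev_tr]
      funext P
      rw [Finset.sum_insert hη]
      rfl
  exact h _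

variable [hfin : ∀ P : Y, Finite (MulAction.stabilizer G P)]

/-- If the elements of G that move a point of the support into the support lie in the finite
group Φ, then L2 of the quotient by G can be computed in the quotient by Φ. -/
lemma nsq_per [Fintype Φ] (v : Y → ℂ) (hsep : ∀ (Q : Y) (g : G), v Q ≠ 0 → v (g • Q) ≠ 0 → g ∈ Φ) :
    ∑' Q, ‖∑ η : Φ, v ((η : G) • Q)‖ₑ ^ 2 = (Fintype.card Φ : ℝ≥0∞) * nsq (per G v) := by
  classical
  rw [unfolding (G := G)]
  unfold nsq
  rw [← ENNReal.tsum_mul_left]
  refine tsum_congr fun b => ?_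
  rw [mul_left_comm]
  congr 1
  by_cases h0 : ∀ g : G, v (g • b.out) = 0
  · have h1 : per G v b = 0 := by
      unfold per
      simp [h0]
    rw [h1]
    have h2 : ∀ g : G, ‖∑ η : Φ, v ((η : G) • g • b.out)‖ₑ ^ 2 = 0 := by
      intro g
      have : ∑ η : Φ, v ((η : G) • g • b.out) = 0 := by
        refine Finset.sum_eq_zero fun η _ => ?_
        rw [← mul_smul]
        exact h0 _
      rw [this]
      simp
    simp only [h2, tsum_zero]
    simp
  · push Not at h0
    obtain ⟨g0, hg0⟩ := h0
    set A0 := ∑ η : Φ, v ((η : G) • g0 • b.out) with hA0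
    have hmem : ∀ g : G, v (g • b.out) ≠ 0 → g * g0⁻¹ ∈ Φ := by
      intro g hg
      refine hsep (g0 • b.out) _ hg0 ?_
      rw [← mul_smul]
      simpa using hg
    set S : Finset G := Finset.univ.map (Function.Embedding.subtype fun g => g ∈ Φ) with hS
    have hmemS : ∀ g : G, g ∈ S ↔ g ∈ Φ := by
      intro g
      simp [hS]
    have h1 : per G v b = A0 := by
      unfold per
      rw [← finsum_comp_equiv (Equiv.mulRight g0), finsum_eq_sum_of_support_subset (s := S)]
      · rw [hS, Finset.sum_map, hA0]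
        refine Finset.sum_congr rfl fun η _ => ?_
        show v (((η : G) * g0) • b.out) = _
        rw [mul_smul]
      · intro g hg
        rw [Finset.mem_coe, hmemS]
        have := hmem (g * g0) hg
        simpa using this
    have h2 : ∀ g : G, ‖∑ η : Φ, v ((η : G) • (g * g0) • b.out)‖ₑ ^ 2 =
        if g ∈ S then ‖A0‖ₑ ^ 2 else 0 := by
      intro g
      by_cases hg : g ∈ Φ
      · rw [if_pos ((hmemS g).2 hg)]
        congr 2
        have h4 := Equiv.sum_comp (Equiv.mulRight (⟨g, hg⟩ : Φ))
          (fun η : Φ => v ((η : G) • g0 • b.out))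
        rw [hA0, ← h4]
        refine Finset.sum_congr rfl fun η _ => ?_
        rw [Equiv.coe_mulRight, Subgroup.coe_mul, mul_smul, mul_smul]
      · rw [if_neg fun h => hg ((hmemS g).1 h)]
        have : ∑ η : Φ, v ((η : G) • (g * g0) • b.out) = 0 := by
          refine Finset.sum_eq_zero fun η _ => ?_
          by_contra hne
          rw [← mul_smul] at hne
          have h3 := hmem _ hne
          rw [← mul_assoc, mul_inv_cancel_right] at h3
          exact hg ((Φ.mul_mem_cancel_left η.2).1 h3)
        rw [this]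
        simp
    rw [h1, ← (Equiv.mulRight g0).tsum_eq]
    simp only [Equiv.coe_mulRight, h2]
    rw [tsum_eq_sum (s := S) (fun g hg => if_neg hg), Finset.sum_congr rfl fun g hg => if_pos hg,
      Finset.sum_const, nsmul_eq_mul]
    congr 2
    rw [hS, Finset.card_map, Finset.card_univ]

/-- The exact isometry. -/
lemma norm_av [Fintype Φ] (x : L2 TG Y) (u : L2 G Y) (hu : (u : Bun G Y → ℂ) = per G (ev x))
    (hsep : ∀ (Q : Y) (g : G), ev x Q ≠ 0 → ev x (g • Q) ≠ 0 → g ∈ Φ) :
    ‖av Φ x‖ ^ 2 = Fintype.card Φ * ‖u‖ ^ 2 := by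
  have h1 := nsq_per Φ (ev x) hsep
  have h2 := ev_sq (av Φ x)
  rw [ev_av] at h2
  rw [h1, ← hu, ← norm_sq] at h2
  have e1 : (Fintype.card Φ : ℝ≥0∞) = ENNReal.ofReal (Fintype.card Φ) := by simp
  rw [e1, ← ENNReal.ofReal_mul (by positivity)] at h2
  exact ((ENNReal.ofReal_eq_ofReal_iff (by positivity) (by positivity)).1 h2).symm

end

end Pool.Agent.Helper56.UD
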