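import Pool.Agent.Helper80.AT.Defs

/-! Definitions for the uniform density theorem. -/

open Pool.Agent.Helper80.AT

namespace Pool.Agent.Helper56.UD

/-- Every f in F with poles only in B, and polar divisor of degree at most m, has no poles. -/
def GonOn {F : Type} [Field F] (X : Places F) (B : Set X.V) (m : ℕ) : Prop :=
  ∀ f : F, X.poles f ≤ m → (∀ v, v ∉ B → X.pole v f = 0) → ∀ v, X.pole v f = 0

/-- The g in Γ with gP = P outside B and dist(gP, P) at most n. -/
def CloseAut {F : Type} [Field F] {X : Places F} {N : ℕ} {Γ : Subgroup (GL (Fin N) F)}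
    (B : Set X.V) (P : Bundle X Γ) (n : ℕ) : Set Γ :=
  {g | X.dist (g • P) P ≤ n ∧ ∀ v, v ∉ B → (g • P).c v = P.c v}

/-- Every class in S has a point at distance at most R from P₀ that agrees with P₀ outside B. -/
def NearIn {F : Type} [Field F] {X : Places F} {N : ℕ} {Γ : Subgroup (GL (Fin N) F)}
    (B : Set X.V) (P₀ : Bundle X Γ) (R : ℕ) (S : Finset (Classes X Γ)) : Prop :=
  ∀ b ∈ S, ∃ Q, X.dist P₀ Q ≤ R ∧ (∀ y, y ∉ B → P₀.c y = Q.c y) ∧ cls Γ (Bundle X Γ) Q = b

end Pool.Agent.Helper56.UD
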