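import Pool.Agent.Helper56.UD.Av

/-! The Chebyshev family, inside a subalgebra; locality off a set of places. -/

open scoped ENNReal NNReal InnerProductSpace
open MeasureTheory
open Pool.Agent.Helper80.AT

namespace Pool.Agent.Helper56.UD

section

variable {k A : Type*} [CommRing k] [Ring A] [Algebra k A] (𝒜 : Subalgebra k A)

lemma ch_mem {q : A} (hq : q ∈ 𝒜) (n : ℕ) : chA q n ∈ 𝒜 ∧ chB q n ∈ 𝒜 := by
  induction n with
  | zero => exact ⟨𝒜.one_mem, 𝒜.zero_mem⟩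
  | succ n ih =>
    obtain ⟨ha, hb⟩ := ih
    have hc : chC q n ∈ 𝒜 := 𝒜.add_mem (sub_mem ha hb) (𝒜.mul_mem hq hb)
    have hd : chD q n ∈ 𝒜 := 𝒜.add_mem ha (𝒜.mul_mem hq hb)
    exact ⟨𝒜.add_mem (sub_mem (𝒜.mul_mem hq hc) hd) (𝒜.mul_mem hq hd), 𝒜.add_mem hc hd⟩

lemma chC_mem {q : A} (hq : q ∈ 𝒜) (n : ℕ) : chC q n ∈ 𝒜 :=
  𝒜.add_mem (sub_mem (ch_mem 𝒜 hq n).1 (ch_mem 𝒜 hq n).2) (𝒜.mul_mem hq (ch_mem 𝒜 hq n).2)

end

variable {F : Type} [Field F] {X : Places F} {N : ℕ} {Γ : Subgroup (GL (Fin N) F)}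

variable {J : Type} [Fintype J] (L : J → List (Hecke X Γ)) (D : ℕ) (hD : ∀ j, wordSize (L j) ≤ D)
    (W : Submodule ℂ (L2 Γ (Bundle X Γ))) (hW : ∀ j, ∀ T ∈ L j, Stable W T.op) (A : ℝ)
    (hA : 0 < A) (hlow : ∀ w ∈ W, A ^ 2 * ‖w‖ ^ 2 ≤ ∑ j, ‖wordOp (L j) w‖ ^ 2)
    (s : ℝ) (hs : 1 ≤ s) (hsA : (∑ j, wordNorm (L j) ^ 2) * (s + s⁻¹) ^ 2 ≤ 4 * A ^ 2)
    (𝒜 : Subalgebra ℂ (L2 TG (Bundle X Γ) →L[ℂ] L2 TG (Bundle X Γ)))
    (h𝒜 : ∀ j, tgWord (L j) ∈ 𝒜 ∧ ContinuousLinearMap.adjoint (tgWord (L j)) ∈ 𝒜)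

include hD hW hA hlow hs hsA h𝒜 in
lemma ch_family' (P₀ : Bundle X Γ) (m : ℕ) :
    ∃ (J' : Type) (_ : Fintype J')
      (f₁ : J' → L2 TG (Bundle X Γ) →L[ℂ] L2 TG (Bundle X Γ))
      (f : J' → L2 Γ (Bundle X Γ) →L[ℂ] L2 Γ (Bundle X Γ)),
      (∀ j, f₁ j ∈ 𝒜) ∧
      (∀ j, Tri P₀ (m * D) (f₁ j) (f j)) ∧ (∀ j, Stable W (f j)) ∧
      (∀ x, ∑ j, ‖f₁ j x‖ ^ 2 ≤ ‖x‖ ^ 2) ∧
      ∀ w ∈ W, ((s ^ m + s⁻¹ ^ m) / 2) ^ 2 * ‖w‖ ^ 2 ≤ ∑ j, ‖f j w‖ ^ 2 := by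
  have hs0 : 0 < s := by linarith
  set β : ℝ := (s + s⁻¹) / 2 with hβdef
  have hss : s * s⁻¹ = 1 := mul_inv_cancel₀ hs0.ne'
  have hinv : 0 < s⁻¹ := inv_pos.2 hs0
  have hβ : 1 ≤ β := by
    rw [hβdef]
    nlinarith [sq_nonneg (s - 1), sq_nonneg (s - s⁻¹)]
  have hβ0 : 0 < β := by linarith
  set R : ℝ := A ^ 2 / β ^ 2 with hR
  have hR0 : 0 < R := by positivity
  have hsum : ∑ j, wordNorm (L j) ^ 2 ≤ R := by
    rw [hR, le_div_iff₀ (by positivity), hβdef]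
    linarith
  set T₁ := fun j => tgWord (L j) with hT₁
  set T := fun j => wordOp (L j) with hT
  set q₁ := qOp T₁ R with hq₁
  set q := qOp T R with hq
  have hst : ∀ j, Stable W (T j) := fun j => stable_word (L j) (hW j)
  have hqst : Stable W q := stable_qOp hst
  have hqN : ∀ w ∈ W, β ^ 2 * ‖w‖ ^ 2 ≤ qN T R w := by
    intro w hw
    have h1 := hlow w hw
    unfold qN
    rw [hR, inv_div, div_mul_eq_mul_div, le_div_iff₀ (by positivity)]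
    calc β ^ 2 * ‖w‖ ^ 2 * A ^ 2 = β ^ 2 * (A ^ 2 * ‖w‖ ^ 2) := by ring
      _ ≤ _ := by gcongr
  have htri : Tri P₀ (2 * D) q₁ q := by
    rw [hq₁, hq]
    unfold qOp
    refine (Tri.sum _ fun j _ => ?_).smul _
    obtain ⟨h1, h2⟩ := tri_word (P₀ := P₀) (L j)
    have h3 := hD j
    exact (h2.mul h1).mono (by omega)
  have hq₁mem : q₁ ∈ 𝒜 := by
    rw [hq₁]
    unfold qOp
    exact 𝒜.smul_mem (𝒜.sum_mem fun j _ => 𝒜.mul_mem (h𝒜 j).2 (h𝒜 j).1) _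
  have hρ : ∀ j x, ‖T₁ j x‖ ≤ wordNorm (L j) * ‖x‖ := fun j x => tgWord_norm (L j) x
  rcases Nat.even_or_odd' m with ⟨n, hn | hn⟩
  · refine ⟨Unit, inferInstance, fun _ => chA q₁ n, fun _ => chA q n, ?_, ?_, ?_, ?_, ?_⟩
    · intro _
      exact (ch_mem 𝒜 hq₁mem n).1
    · intro _
      rw [hn]
      exact (tri_ch htri n).1
    · intro _
      exact (stable_ch hqst n).1
    · intro x
      rw [Fintype.sum_unique]
      exact chA_le hR0 hρ hsum x n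
    · intro w hw
      rw [Fintype.sum_unique, hn]
      have h1 := ((sem_AB hst hβ hqN n).1).norm_le hw
      have h2 := (ch_real hs0 n).1
      rw [← hβdef] at h2
      rw [h2] at h1
      rw [← mul_pow]
      exact pow_le_pow_left₀ (by positivity) h1 2
  · set c : ℂ := ((Real.sqrt R⁻¹ : ℝ) : ℂ) with hc
    have hcn : ‖c‖ ^ 2 = R⁻¹ := by
      rw [hc, Complex.norm_real, Real.norm_of_nonneg (Real.sqrt_nonneg _),
        Real.sq_sqrt (inv_pos.2 hR0).le]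
    refine ⟨J, inferInstance, fun j => c • (T₁ j * chC q₁ n), fun j => c • (T j * chC q n),
      ?_, ?_, ?_, ?_, ?_⟩
    · intro j
      exact 𝒜.smul_mem (𝒜.mul_mem (h𝒜 j).1 (chC_mem 𝒜 hq₁mem n)) _
    · intro j
      refine (((tri_word (P₀ := P₀) (L j)).1.mul (tri_chC htri n)).mono ?_).smul c
      have h3 := hD j
      rw [hn, Nat.add_mul, Nat.one_mul]
      omega
    · intro j
      exact ((hst j).mul (stable_chC hqst n)).smul c
    · intro x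
      have e : ∀ j, ‖(c • (T₁ j * chC q₁ n)) x‖ ^ 2 = R⁻¹ * ‖T₁ j (chC q₁ n x)‖ ^ 2 := by
        intro j
        rw [_root_.smul_apply, norm_smul, mul_pow, hcn]
        rfl
      simp only [e]
      rw [← Finset.mul_sum]
      exact chC_le hR0 hρ hsum x n
    · intro w hw
      have e : ∀ j, ‖(c • (T j * chC q n)) w‖ ^ 2 = R⁻¹ * ‖T j (chC q n w)‖ ^ 2 := by
        intro j
        rw [_root_.smul_apply, norm_smul, mul_pow, hcn]
        rfl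
      simp only [e]
      rw [← Finset.mul_sum]
      have hmem : chC q n w ∈ W := (stable_chC hqst n).stable w hw
      have h0 : β ^ 2 * ‖chC q n w‖ ^ 2 ≤ R⁻¹ * ∑ j, ‖T j (chC q n w)‖ ^ 2 := hqN _ hmem
      have h1 := (sem_C hst hβ hqN n).norm_le hw
      have h2 := ch_real_odd hs0 n
      rw [← hβdef] at h2
      have h3 : 0 ≤ chC (β ^ 2) n := (ch_nonneg (by nlinarith) n).2.2
      rw [hn, ← h2]
      refine le_trans ?_ h0
      calc (β * chC (β ^ 2) n) ^ 2 * ‖w‖ ^ 2 = β ^ 2 * (chC (β ^ 2) n * ‖w‖) ^ 2 := by ring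
        _ ≤ β ^ 2 * ‖chC q n w‖ ^ 2 := by gcongr

/-- The function v vanishes at the bundles that differ from P₀ outside B. -/
def Off (B : Set X.V) (P₀ : Bundle X Γ) (v : Bundle X Γ → ℂ) : Prop :=
  ∀ Q, v Q ≠ 0 → ∀ y, y ∉ B → P₀.c y = Q.c y

/-- The operators on l2(Y) that commute with the sum of the translations by Φ and preserve the
functions supported at the modifications of P₀ in B. -/
noncomputable def goodAlg (B : Set X.V) (P₀ : Bundle X Γ) (Φ : Subgroup Γ) :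
    Subalgebra ℂ (L2 TG (Bundle X Γ) →L[ℂ] L2 TG (Bundle X Γ)) where
  carrier := {a | Commute (av Φ) a ∧ ∀ x, Off B P₀ (ev x) → Off B P₀ (ev (a x))}
  mul_mem' := by
    intro a b ha hb
    exact ⟨ha.1.mul_right hb.1, fun x hx => ha.2 _ (hb.2 x hx)⟩
  add_mem' := by
    intro a b ha hb
    refine ⟨ha.1.add_right hb.1, fun x hx Q hQ => ?_⟩
    rw [_root_.add_apply, ev_add, Pi.add_apply] at hQ
    by_cases h : ev (a x) Q = 0
    · rw [h, zero_add] at hQ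
      exact hb.2 x hx Q hQ
    · exact ha.2 x hx Q h
  algebraMap_mem' := by
    intro c
    refine ⟨(Algebra.commutes c (av Φ)).symm, fun x hx Q hQ => ?_⟩
    have e : (algebraMap ℂ (L2 TG (Bundle X Γ) →L[ℂ] L2 TG (Bundle X Γ)) c) x = c • x := rfl
    rw [e, ev_smul, Pi.smul_apply] at hQ
    exact hx Q (right_ne_zero_of_smul hQ)

lemma ker_mem (B : Set X.V) (P₀ : Bundle X Γ) (Φ : Subgroup Γ) [Finite Φ]
    {K : Ker Γ (Bundle X Γ)} (hK : ∀ P Q, K.k P Q ≠ 0 → ∀ y, y ∉ B → P.c y = Q.c y) :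
    K.tg.op ∈ goodAlg B P₀ Φ := by
  refine ⟨av_comm Φ K, fun x hx Q hQ y hy => ?_⟩
  rw [ev_op] at hQ
  obtain ⟨Q', hQ'⟩ : ∃ Q', K.k Q Q' * ev x Q' ≠ 0 := by
    by_contra hc
    push Not at hc
    apply hQ
    unfold Ker.act
    simp [hc]
  rw [hx Q' (right_ne_zero_of_mul hQ') y hy, hK Q Q' (left_ne_zero_of_mul hQ') y hy]

lemma ker_adj_mem (B : Set X.V) (P₀ : Bundle X Γ) (Φ : Subgroup Γ) [Finite Φ]
    {K : Ker Γ (Bundle X Γ)} (hK : ∀ P Q, K.k P Q ≠ 0 → ∀ y, y ∉ B → P.c y = Q.c y) :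
    ContinuousLinearMap.adjoint K.tg.op ∈ goodAlg B P₀ Φ := by
  rw [adjoint_op]
  refine ker_mem B P₀ Φ (K := K.star) ?_
  intro P Q hPQ y hy
  refine (hK Q P ?_ y hy).symm
  intro h0
  apply hPQ
  show starRingEnd ℂ (K.k Q P) = 0
  rw [h0, map_zero]

lemma word_mem (B : Set X.V) (P₀ : Bundle X Γ) (Φ : Subgroup Γ) [Finite Φ]
    (L : List (Hecke X Γ)) (hL : ∀ T ∈ L, T.x ∈ B) :
    tgWord L ∈ goodAlg B P₀ Φ ∧ ContinuousLinearMap.adjoint (tgWord L) ∈ goodAlg B P₀ Φ := by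
  induction L with
  | nil =>
    have e1 : tgWord ([] : List (Hecke X Γ)) = 1 := rfl
    rw [e1]
    refine ⟨Subalgebra.one_mem _, ?_⟩
    rw [← ContinuousLinearMap.star_eq_adjoint, star_one]
    exact Subalgebra.one_mem _
  | cons T L ih =>
    have e1 : tgWord (T :: L) = (heckeKer T.fn).tg.op * tgWord L := by
      unfold tgWord
      rw [List.map_cons, List.prod_cons]
    obtain ⟨ih1, ih2⟩ := ih fun T' hT' => hL T' (by simp [hT'])
    have hK : ∀ P Q, (heckeKer T.fn).k P Q ≠ 0 → ∀ y, y ∉ B → P.c y = Q.c y := by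
      intro P Q hPQ y hy
      refine (entry_ne hPQ).1 y ?_
      intro h
      apply hy
      rw [h]
      exact hL T (by simp)
    rw [e1]
    refine ⟨Subalgebra.mul_mem _ (ker_mem B P₀ Φ hK) ih1, ?_⟩
    simp only [← ContinuousLinearMap.star_eq_adjoint, star_mul]
    simp only [ContinuousLinearMap.star_eq_adjoint]
    exact Subalgebra.mul_mem _ ih2 (ker_adj_mem B P₀ Φ hK)

end Pool.Agent.Helper56.UD
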