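import Mathlib

/-! The roots of the monic polynomials of degree N with coefficients in a finite set closed under
multiplication lie in a finite subfield of the algebraic closure (positive characteristic). -/

open Polynomial

namespace Pool.Agent.Helper56.UD

/-- an element with only finitely many powers is integral -/
lemma integral_of_fin {k A : Type*} [CommRing k] [Nontrivial k] [CommRing A] [Algebra k A] (c : A)
    (C : Set A) (hC : C.Finite) (hpow : ∀ n : ℕ, c ^ n ∈ C) : IsIntegral k c := by
  obtain ⟨i, j, hij, h⟩ : ∃ i j : ℕ, i < j ∧ c ^ i = c ^ j := by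
    have := hC.to_subtype
    obtain ⟨i, j, hne, h⟩ := Finite.exists_ne_map_eq_of_infinite
      (fun n : ℕ => (⟨c ^ n, hpow n⟩ : C))
    have h' : c ^ i = c ^ j := congrArg Subtype.val h
    rcases lt_or_gt_of_ne hne with h1 | h1
    · exact ⟨i, j, h1, h'⟩
    · exact ⟨j, i, h1, h'.symm⟩
  obtain ⟨m, rfl⟩ : ∃ m, j = m + 1 := ⟨j - 1, by omega⟩
  refine ⟨X ^ (m + 1) - X ^ i, monic_X_pow_sub ?_, ?_⟩
  · rw [degree_X_pow]
    exact_mod_cast (by omega : i < m + 1)
  · rw [eval₂_sub, eval₂_X_pow, eval₂_X_pow, h, sub_self]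

/-- a root of a monic polynomial with integral coefficients is integral -/
lemma integral_root {k A : Type*} [CommRing k] [CommRing A] [Algebra k A] (q : A[X])
    (hq : q.Monic) (hc : ∀ i, IsIntegral k (q.coeff i)) (μ : A) (hμ : q.IsRoot μ) :
    IsIntegral k μ := by
  have h1 : q ∈ lifts (algebraMap (integralClosure k A) A) := by
    rw [lifts_iff_coeff_lifts]
    intro i
    exact ⟨⟨q.coeff i, hc i⟩, rfl⟩
  obtain ⟨q', hq', -, hmon⟩ := lifts_and_natDegree_eq_and_monic h1 hq
  have h2 : IsIntegral (integralClosure k A) μ := by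
    refine ⟨q', hmon, ?_⟩
    rw [eval₂_eq_eval_map, hq']
    exact hμ
  have : Algebra.IsIntegral k (integralClosure k A) := integralClosure.AlgebraIsIntegral
  exact isIntegral_trans μ h2

theorem fin_subfield {F : Type*} [Field F] (p : ℕ) (hp : p ≠ 0) [CharP F p] (C : Set F)
    (hC : C.Finite) (hpow : ∀ c ∈ C, ∀ n : ℕ, c ^ n ∈ C) (N : ℕ) :
    ∃ k' : Subfield (AlgebraicClosure F), Finite k' ∧
      ∀ q : F[X], q.Monic → q.natDegree ≤ N → (∀ i, q.coeff i ∈ C) →
        ∀ μ, (q.map (algebraMap F (AlgebraicClosure F))).IsRoot μ → μ ∈ k' := by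
  classical
  have hprime : p.Prime := (CharP.char_is_prime_or_zero F p).resolve_right hp
  have : Fact p.Prime := ⟨hprime⟩
  have hK : CharP (AlgebraicClosure F) p :=
    charP_of_injective_algebraMap (algebraMap F (AlgebraicClosure F)).injective p
  let _ : Algebra (ZMod p) (AlgebraicClosure F) := ZMod.algebra _ p
  set Q : Set F[X] := {q | q.Monic ∧ q.natDegree ≤ N ∧ ∀ i, q.coeff i ∈ C} with hQ
  have hQfin : Q.Finite := by
    refine Set.Finite.of_finite_image (f := fun q : F[X] => fun i : Fin (N + 1) => q.coeff i)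
      ?_ ?_
    · refine (Set.Finite.pi' (fun _ : Fin (N + 1) => hC)).subset ?_
      rintro _ ⟨q, hq, rfl⟩ i
      exact hq.2.2 i
    · intro q hq r hr hqr
      ext i
      by_cases hi : i < N + 1
      · exact congrFun hqr ⟨i, hi⟩
      · rw [coeff_eq_zero_of_natDegree_lt (by have := hq.2.1; omega),
          coeff_eq_zero_of_natDegree_lt (by have := hr.2.1; omega)]
  set R : Set (AlgebraicClosure F) :=
    ⋃ q ∈ Q, {μ | (q.map (algebraMap F (AlgebraicClosure F))).IsRoot μ} with hR
  have hRfin : R.Finite := by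
    refine hQfin.biUnion fun q hq => ?_
    have hne : q.map (algebraMap F (AlgebraicClosure F)) ≠ 0 := (hq.1.map _).ne_zero
    refine ((q.map (algebraMap F (AlgebraicClosure F))).roots.toFinset.finite_toSet).subset ?_
    intro μ hμ
    simp only [Finset.mem_coe, Multiset.mem_toFinset]
    exact (mem_roots hne).2 hμ
  have hRint : ∀ μ ∈ R, IsIntegral (ZMod p) μ := by
    intro μ hμ
    rw [hR, Set.mem_iUnion₂] at hμ
    obtain ⟨q, hq, hμ⟩ := hμ
    refine integral_root _ (hq.1.map _) (fun i => ?_) μ hμ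
    rw [coeff_map]
    refine integral_of_fin _ ((algebraMap F (AlgebraicClosure F)) '' C) (hC.image _) fun n => ?_
    rw [← map_pow]
    exact ⟨_, hpow _ (hq.2.2 i) n, rfl⟩
  have := hRfin.to_subtype
  have hfd : FiniteDimensional (ZMod p) (IntermediateField.adjoin (ZMod p) R) :=
    IntermediateField.finiteDimensional_adjoin hRint
  refine ⟨(IntermediateField.adjoin (ZMod p) R).toSubfield, ?_, ?_⟩
  · exact Module.finite_of_finite (ZMod p) (M := IntermediateField.adjoin (ZMod p) R)
  · intro q hmon hdeg hcoef μ hμ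
    refine IntermediateField.subset_adjoin _ _ ?_
    exact Set.mem_iUnion₂.2 ⟨q, ⟨hmon, hdeg, hcoef⟩, hμ⟩

end Pool.Agent.Helper56.UD
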