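import Pool.Agent.Helper56.UD.Irr

/-! Finiteness of a matrix group by induction over invariant subspaces. -/

open scoped Pointwise
open Module

namespace Pool.Agent.Helper56.UD

section Hom

variable {K V G : Type*} [Field K] [AddCommGroup V] [Module K V] [Group G]
  (ρ : G →* Module.End K V) (U : Submodule K V) (hU : ∀ g, ∀ u ∈ U, ρ g u ∈ U)

/-- the restriction -/
def resHom : G →* Module.End K U where
  toFun g := (ρ g).restrict (hU g)
  map_one' := by
    ext u
    simp
  map_mul' g h := by
    ext u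
    simp

/-- the action on the quotient -/
def quoHom : G →* Module.End K (V ⧸ U) where
  toFun g := U.mapQ U (ρ g) (hU g)
  map_one' := by
    ext v
    simp
  map_mul' g h := by
    ext v
    simp

lemma resHom_eig (g : G) (μ : K) (h : (resHom ρ U hU g).HasEigenvalue μ) :
    (ρ g).HasEigenvalue μ := by
  obtain ⟨u, hu⟩ := h.exists_hasEigenvector
  refine Module.End.hasEigenvalue_of_hasEigenvector (x := (u : V)) ?_
  rw [Module.End.hasEigenvector_iff, Module.End.mem_eigenspace_iff] at hu ⊢
  refine ⟨?_, ?_⟩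
  · exact congrArg Subtype.val hu.1
  · intro h0
    exact hu.2 (Subtype.ext h0)

lemma quoHom_eig [FiniteDimensional K V] (g : G) (μ : K)
    (h : (quoHom ρ U hU g).HasEigenvalue μ) : (ρ g).HasEigenvalue μ := by
  by_contra hc
  set f := ρ g - algebraMap K (Module.End K V) μ with hf
  have hker : LinearMap.ker f = ⊥ := by
    by_contra hne
    apply hc
    rw [Module.End.hasEigenvalue_iff, Module.End.eigenspace_def]
    exact hne
  have hinj : Function.Injective f := LinearMap.ker_eq_bot.1 hker
  have hsurj : Function.Surjective f := LinearMap.injective_iff_surjective.1 hinj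
  have hQ : ∀ x : V ⧸ U, ∃ y : V ⧸ U, quoHom ρ U hU g y - μ • y = x := by
    intro x
    obtain ⟨v, rfl⟩ := U.mkQ_surjective x
    obtain ⟨w, rfl⟩ := hsurj v
    refine ⟨U.mkQ w, ?_⟩
    show U.mkQ (ρ g w) - μ • U.mkQ w = U.mkQ (ρ g w - μ • w)
    rw [map_sub, map_smul]
  set q := quoHom ρ U hU g - algebraMap K (Module.End K (V ⧸ U)) μ with hq
  have hqs : Function.Surjective q := fun x => hQ x
  have hqi : Function.Injective q := LinearMap.injective_iff_surjective.2 hqs
  rw [Module.End.hasEigenvalue_iff, Module.End.eigenspace_def] at h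
  exact h (LinearMap.ker_eq_bot.2 hqi)

end Hom

/-- extensions -/
lemma ext_finite {K V G : Type*} [Field K] [AddCommGroup V] [Module K V] [Group G]
    [hG : Group.FG G] (ρ : G →* Module.End K V) (p : ℕ) (hp : p ≠ 0) [CharP K p]
    (U : Submodule K V) (hU : ∀ g, ∀ u ∈ U, ρ g u ∈ U) (h1 : (Set.range (resHom ρ U hU)).Finite)
    (h2 : (Set.range (quoHom ρ U hU)).Finite) : (Set.range ρ).Finite := by
  classical
  set f := (resHom ρ U hU).toHomUnits.prod (quoHom ρ U hU).toHomUnits with hf
  have hfr : Finite f.range := by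
    have hA : (Set.range (resHom ρ U hU) ×ˢ Set.range (quoHom ρ U hU)).Finite := h1.prod h2
    have := hA.to_subtype
    refine Finite.of_injective (fun x : f.range =>
      (⟨(((x.1.1 : (Module.End K U)ˣ) : Module.End K U),
        ((x.1.2 : (Module.End K (V ⧸ U))ˣ) : Module.End K (V ⧸ U))), by
          obtain ⟨g, hg⟩ := x.2
          rw [← hg]
          exact ⟨⟨g, rfl⟩, ⟨g, rfl⟩⟩⟩ :
        (Set.range (resHom ρ U hU) ×ˢ Set.range (quoHom ρ U hU) : Set _))) ?_
    intro x y hxy
    apply Subtype.ext
    simp only [Subtype.mk.injEq, Prod.mk.injEq] at hxy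
    exact Prod.ext (Units.ext hxy.1) (Units.ext hxy.2)
  set H := f.ker with hH
  have hHfi : H.FiniteIndex := Subgroup.finiteIndex_ker f
  have hHfg : Group.FG H := Subgroup.fg_of_index_ne_zero H
  have hker : ∀ h : H, (∀ u ∈ U, ρ h u = u) ∧ ∀ v, ρ h v - v ∈ U := by
    intro h
    have h3 : f h = 1 := h.2
    have h4 : resHom ρ U hU h = 1 := by
      have := congrArg (fun x => ((x.1 : (Module.End K U)ˣ) : Module.End K U)) h3
      exact this
    have h5 : quoHom ρ U hU h = 1 := by
      have := congrArg (fun x => ((x.2 : (Module.End K (V ⧸ U))ˣ) : Module.End K (V ⧸ U))) h3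
      exact this
    refine ⟨fun u hu => ?_, fun v => ?_⟩
    · have := congrArg (fun F : Module.End K U => ((F ⟨u, hu⟩ : U) : V)) h4
      exact this
    · have h6 : U.mkQ (ρ h v) = U.mkQ v :=
        congrArg (fun F : Module.End K (V ⧸ U) => F (U.mkQ v)) h5
      rw [← U.ker_mkQ, LinearMap.mem_ker, map_sub, h6, sub_self]
  let τ : H →* Multiplicative (Module.End K V) :=
    { toFun := fun h => Multiplicative.ofAdd (ρ h - 1)
      map_one' := by
        show Multiplicative.ofAdd (ρ ((1 : H) : G) - 1) = 1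
        rw [Subgroup.coe_one, map_one, sub_self]
        rfl
      map_mul' := by
        intro a b
        show Multiplicative.ofAdd (ρ ((a * b : H) : G) - 1) =
          Multiplicative.ofAdd ((ρ a - 1) + (ρ b - 1))
        congr 1
        rw [Subgroup.coe_mul, map_mul]
        have h0 : (ρ a - 1) * (ρ b - 1) = 0 := by
          ext v
          show ρ a (ρ b v - v) - (ρ b v - v) = 0
          rw [(hker a).1 _ ((hker b).2 v), sub_self]
        have h7 : ρ a * ρ b - 1 = (ρ a - 1) * (ρ b - 1) + ((ρ a - 1) + (ρ b - 1)) := by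
          noncomm_ring
        rw [h7, h0, zero_add] }
  have hτ : Finite τ.range := by
    refine CommGroup.finite_of_fg_isMulTorsion _ ?_
    intro x
    rw [isOfFinOrder_iff_pow_eq_one]
    refine ⟨p, Nat.pos_of_ne_zero hp, ?_⟩
    apply Subtype.ext
    obtain ⟨x, hx⟩ := x
    show x ^ p = 1
    apply Multiplicative.toAdd.injective
    show p • (Multiplicative.toAdd x) = 0
    rw [← Nat.cast_smul_eq_nsmul K, CharP.cast_eq_zero, zero_smul]
  have hρH : (Set.range fun h : H => ρ h).Finite := by
    have h3 : (Set.range τ).Finite := by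
      rw [← MonoidHom.coe_range]
      exact Set.toFinite _
    refine (h3.image fun x => 1 + Multiplicative.toAdd x).subset ?_
    rintro _ ⟨h, rfl⟩
    refine ⟨τ h, ⟨h, rfl⟩, ?_⟩
    show 1 + (ρ h - 1) = ρ h
    abel
  have : Finite (G ⧸ H) := Subgroup.finite_quotient_of_finiteIndex
  refine (Set.finite_iUnion fun q : G ⧸ H => hρH.image fun x => ρ q.out * x).subset ?_
  rintro _ ⟨g, rfl⟩
  rw [Set.mem_iUnion]
  obtain ⟨h, hh⟩ := QuotientGroup.mk_out_eq_mul H g
  refine ⟨(g : G ⧸ H), ρ ((h⁻¹ : H) : G), ⟨h⁻¹, rfl⟩, ?_⟩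
  show ρ _ * ρ _ = ρ g
  rw [← map_mul, hh]
  congr 1
  simp

/-- A finitely generated matrix group in characteristic p is finite if the eigenvalues of the
short words in the generators lie in a finite field. -/
theorem fin_image {K : Type*} {G : Type*} [Field K] [IsAlgClosed K] [Group G] [Group.FG G]
    (p : ℕ) (hp : p ≠ 0) [CharP K p] (S : Set G) (h1 : 1 ∈ S) (hgen : ∀ g, ∃ l : ℕ, g ∈ S ^ l)
    (k' : Subfield K) [Finite k'] (N : ℕ) (n : ℕ) :
    ∀ (V : Type*) [AddCommGroup V] [Module K V] [FiniteDimensional K V] (ρ : G →* Module.End K V),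
      finrank K V = n → n ≤ N →
      (∀ g ∈ S ^ (2 * N ^ 2), ∀ μ, (ρ g).HasEigenvalue μ → μ ∈ k') → (Set.range ρ).Finite := by
  induction n using Nat.strong_induction_on with
  | _ n ih =>
    intro V _ _ _ ρ hn hN heig
    by_cases hirr : ∀ U : Submodule K V, (∀ g, ∀ u ∈ U, ρ g u ∈ U) → U = ⊥ ∨ U = ⊤
    · refine irr_finite ρ S h1 hgen k' hirr ?_
      intro g hg
      refine heig g (Set.pow_subset_pow_right h1 ?_ hg)
      rw [hn]
      gcongr
    · push Not at hirr
      obtain ⟨U, hU, hbot, htop⟩ := hirr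
      have h3 : finrank K U < n := by
        rw [← hn]
        exact Submodule.finrank_lt htop
      have h4 := Submodule.finrank_quotient_add_finrank U
      have h5 : 0 < finrank K U := Nat.pos_of_ne_zero fun h => hbot (Submodule.finrank_eq_zero.1 h)
      refine ext_finite ρ p hp U hU ?_ ?_
      · exact ih _ h3 U (resHom ρ U hU) rfl (by omega)
          fun g hg μ hμ => heig g hg μ (resHom_eig ρ U hU g μ hμ)
      · exact ih (finrank K (V ⧸ U)) (by omega) (V ⧸ U) (quoHom ρ U hU) rfl (by omega)
          fun g hg μ hμ => heig g hg μ (quoHom_eig ρ U hU g μ hμ)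

end Pool.Agent.Helper56.UD
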