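import Mathlib

/-! Burnside: a group of matrices, irreducible over an algebraically closed field, is finite if the
eigenvalues of all short words in the generators lie in a finite field. -/

open scoped Pointwise
open Module

namespace Pool.Agent.Helper56.UD

lemma chain {k M : Type*} [DivisionRing k] [AddCommGroup M] [Module k M] (U : ℕ → Submodule k M)
    (hU : Monotone U) (h0 : U 0 ≠ ⊥) (n : ℕ) (Λ : Submodule k M) [FiniteDimensional k Λ]
    (hΛ : ∀ l ≤ n, U l ≤ Λ) (hn : finrank k Λ ≤ n) : ∃ i < n, U i = U (i + 1) := by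
  by_contra hcon
  push Not at hcon
  have key : ∀ l ≤ n, l + 1 ≤ finrank k (U l) := by
    intro l
    induction l with
    | zero =>
      intro _
      have : FiniteDimensional k (U 0) :=
        Submodule.finiteDimensional_of_le (hΛ 0 (Nat.zero_le n))
      exact Submodule.one_le_finrank_iff.2 h0
    | succ l ih =>
      intro hl
      have : FiniteDimensional k (U (l + 1)) := Submodule.finiteDimensional_of_le (hΛ _ hl)
      have h1 := ih (by omega)
      have h2 : U l < U (l + 1) := lt_of_le_of_ne (hU (Nat.le_succ l)) (hcon l (by omega))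
      have h3 := Submodule.finrank_lt_finrank_of_lt h2
      omega
  have h1 := key n le_rfl
  have h2 := Submodule.finrank_mono (hΛ n le_rfl)
  omega

lemma pow_mono' {k A : Type*} [CommSemiring k] [Semiring A] [Algebra k A] {E : Submodule k A}
    (hE : 1 ≤ E) : Monotone fun l : ℕ => E ^ l := by
  refine monotone_nat_of_le_succ fun l => ?_
  show E ^ l ≤ E ^ (l + 1)
  rw [pow_succ]
  calc E ^ l = E ^ l * 1 := (mul_one _).symm
    _ ≤ _ := mul_le_mul' le_rfl hE

lemma pow_stab {k A : Type*} [CommSemiring k] [Semiring A] [Algebra k A] {E : Submodule k A}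
    {i : ℕ} (h : E ^ i = E ^ (i + 1)) (j : ℕ) : E ^ (i + j) = E ^ i := by
  induction j with
  | zero => rfl
  | succ j ih => rw [← add_assoc, pow_succ, ih, ← pow_succ, ← h]

/-- Burnside's theorem. -/
theorem burnside {K V G : Type*} [Field K] [IsAlgClosed K] [AddCommGroup V] [Module K V]
    [FiniteDimensional K V] [Nontrivial V] [Group G] (ρ : G →* Module.End K V)
    (hirr : ∀ U : Submodule K V, (∀ g, ∀ u ∈ U, ρ g u ∈ U) → U = ⊥ ∨ U = ⊤) :
    Submodule.span K (Set.range ρ) = ⊤ := by
  classical
  set A : Subalgebra K (Module.End K V) := Algebra.adjoin K (Set.range ρ) with hA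
  have hmem : ∀ g, ρ g ∈ A := fun g => Algebra.subset_adjoin ⟨g, rfl⟩
  have hsimple : IsSimpleModule A V := by
    refine { toIsSimpleOrder := { toNontrivial := inferInstance, eq_bot_or_eq_top := ?_ } }
    intro U
    have h := hirr (U.restrictScalars K) (by
      intro g u hu
      have := U.smul_mem (⟨ρ g, hmem g⟩ : A) hu
      exact this)
    rcases h with h | h
    · left
      rwa [Submodule.restrictScalars_eq_bot_iff] at h
    · right
      rwa [Submodule.restrictScalars_eq_top_iff] at h
  have hschur := (IsSimpleModule.algebraMap_end_bijective_of_isAlgClosed (A := A) (V := V) K).2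
  have htop : A = ⊤ := by
    rw [eq_top_iff]
    intro f _
    let F : Module.End (Module.End A V) V :=
      { toFun := fun x => f x
        map_add' := fun x y => map_add f x y
        map_smul' := by
          intro φ v
          obtain ⟨c, hc⟩ := hschur φ
          have h1 : ∀ v : V, φ • v = c • v := by
            intro v
            rw [← hc]
            rfl
          show f (φ • v) = φ • f v
          rw [h1, h1, map_smul] }
    let b := Module.finBasis K V
    obtain ⟨r, hr⟩ := jacobson_density (R := A) (M := V) F (Finset.univ.image b)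
    have : f = (r : Module.End K V) := by
      refine b.ext fun i => ?_
      exact hr (b i) (Finset.mem_image_of_mem _ (Finset.mem_univ i))
    rw [this]
    exact r.2
  have h2 : Subalgebra.toSubmodule A = Submodule.span K (Set.range ρ) := by
    rw [hA, Algebra.adjoin_eq_span]
    congr 1
    have : (Submonoid.closure (Set.range ρ) : Set (Module.End K V)) = Set.range ρ := by
      rw [← MonoidHom.coe_mrange, Submonoid.closure_eq]
    exact this
  rw [← h2, htop]
  rfl

/-- The trace is in a subfield that contains the eigenvalues. -/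
lemma trace_mem {K V : Type*} [Field K] [IsAlgClosed K] [AddCommGroup V] [Module K V]
    [FiniteDimensional K V] (f : Module.End K V) (k' : Subfield K)
    (h : ∀ μ, f.HasEigenvalue μ → μ ∈ k') : LinearMap.trace K V f ∈ k' := by
  rw [Module.End.trace_eq_sum_roots_charpoly_of_splits (IsAlgClosed.splits _)]
  refine multiset_sum_mem _ fun μ hμ => h μ ?_
  rw [Module.End.hasEigenvalue_iff_isRoot_charpoly]
  exact Polynomial.isRoot_of_mem_roots hμ

/-- The trace form is nondegenerate. -/
lemma trace_nondeg {K V : Type*} [Field K] [AddCommGroup V] [Module K V]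
    [FiniteDimensional K V] (f : Module.End K V)
    (h : ∀ g : Module.End K V, LinearMap.trace K V (f * g) = 0) : f = 0 := by
  by_contra hf
  obtain ⟨v, hv⟩ : ∃ v, f v ≠ 0 := by
    by_contra hc
    push Not at hc
    exact hf (LinearMap.ext hc)
  obtain ⟨φ, hφ⟩ : ∃ φ : Module.Dual K V, φ (f v) ≠ 0 := by
    by_contra hc
    push Not at hc
    exact hv ((Module.forall_dual_apply_eq_zero_iff K (f v)).1 hc)
  have h2 := h (φ.smulRight v)
  have h3 : f * φ.smulRight v = φ.smulRight (f v) := by
    ext x
    show f (φ x • v) = φ x • f v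
    rw [map_smul]
  rw [h3, LinearMap.trace_smulRight] at h2
  exact hφ h2

theorem irr_finite {K V G : Type*} [Field K] [IsAlgClosed K] [AddCommGroup V] [Module K V]
    [FiniteDimensional K V] [Group G] (ρ : G →* Module.End K V) (S : Set G) (h1 : 1 ∈ S)
    (hgen : ∀ g, ∃ l : ℕ, g ∈ S ^ l) (k' : Subfield K) [Finite k']
    (hirr : ∀ U : Submodule K V, (∀ g, ∀ u ∈ U, ρ g u ∈ U) → U = ⊥ ∨ U = ⊤)
    (heig : ∀ g ∈ S ^ (2 * finrank K V ^ 2), ∀ μ, (ρ g).HasEigenvalue μ → μ ∈ k') :
    (Set.range ρ).Finite := by
  classical
  rcases subsingleton_or_nontrivial V with hV | hV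
  · have : Subsingleton (Module.End K V) := inferInstance
    exact Set.toFinite _
  set n := finrank K V ^ 2 with hn
  have hEnd : finrank K (Module.End K V) = n := by
    rw [hn, Module.finrank_linearMap, pow_two]
  have hSmono : Monotone fun l : ℕ => S ^ l := by
    refine monotone_nat_of_le_succ fun l => ?_
    exact Set.pow_subset_pow_right h1 (Nat.le_succ l)
  have himg : ∀ l : ℕ, ρ '' (S ^ l) = (ρ '' S) ^ l := fun l => Set.image_pow ρ S l
  have h1T : (1 : Module.End K V) ∈ ρ '' S := ⟨1, h1, map_one ρ⟩
  have hbur := burnside ρ hirr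
  -- the K-spans
  set E : Submodule K (Module.End K V) := Submodule.span K (ρ '' S) with hE
  have hEpow : ∀ l : ℕ, E ^ l = Submodule.span K (ρ '' (S ^ l)) := by
    intro l
    rw [hE, Submodule.span_pow, himg]
  have hE1 : 1 ≤ E := by
    rw [Submodule.one_le]
    exact Submodule.subset_span h1T
  have hEtop : E ^ n = ⊤ := by
    obtain ⟨i, hi, hi2⟩ := chain (fun l : ℕ => E ^ l) (pow_mono' hE1) (by
      show E ^ 0 ≠ ⊥
      rw [pow_zero]
      exact one_ne_zero) n ⊤ (fun _ _ => le_top) (by rw [finrank_top, hEnd])
    have h2 : Submodule.span K (Set.range ρ) ≤ E ^ i := by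
      rw [Submodule.span_le]
      rintro _ ⟨g, rfl⟩
      obtain ⟨l, hl⟩ := hgen g
      have h3 : ρ g ∈ E ^ (i + l) := by
        rw [hEpow]
        exact Submodule.subset_span ⟨g, hSmono (Nat.le_add_left l i) hl, rfl⟩
      rw [pow_stab hi2] at h3
      exact h3
    rw [hbur, top_le_iff] at h2
    rw [eq_top_iff, ← h2]
    exact pow_mono' hE1 hi.le
  rw [hEpow] at hEtop
  obtain ⟨b, hb, hbspan, hbli⟩ := exists_linearIndependent K (ρ '' (S ^ n))
  rw [hEtop] at hbspan
  have hbfin : Finite b := hbli.finite
  have hbfin' : Fintype b := Fintype.ofFinite b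
  have hbcard : Fintype.card b = n := by
    rw [← hEnd]
    have := finrank_eq_card_basis (Basis.mk hbli (by rw [Subtype.range_coe, hbspan]))
    exact this.symm
  -- the lattice
  let Λ : Submodule k' (Module.End K V) :=
    { carrier := {a | ∀ w ∈ b, LinearMap.trace K V (a * w) ∈ k'}
      zero_mem' := by
        intro w _
        rw [zero_mul, map_zero]
        exact k'.zero_mem
      add_mem' := by
        intro x y hx hy w hw
        rw [add_mul, map_add]
        exact k'.add_mem (hx w hw) (hy w hw)
      smul_mem' := by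
        intro c x hx w hw
        have : (c • x) * w = (c : K) • (x * w) := by
          rw [← smul_mul_assoc]
          rfl
        rw [this, map_smul, smul_eq_mul]
        exact k'.mul_mem c.2 (hx w hw) }
  let Ψ : Λ →ₗ[k'] (b → k') :=
    { toFun := fun a w => ⟨LinearMap.trace K V (a.1 * w.1), a.2 w.1 w.2⟩
      map_add' := by
        intro x y
        funext w
        apply Subtype.ext
        show LinearMap.trace K V ((x.1 + y.1) * w.1) = _
        rw [add_mul, map_add]
        rfl
      map_smul' := by
        intro c x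
        funext w
        apply Subtype.ext
        show LinearMap.trace K V (((c : K) • x.1) * w.1) = (c : K) * _
        rw [smul_mul_assoc, map_smul]
        rfl }
  have hΨ : Function.Injective Ψ := by
    rw [← LinearMap.ker_eq_bot, LinearMap.ker_eq_bot']
    intro a ha
    apply Subtype.ext
    refine trace_nondeg a.1 fun g => ?_
    have hg : g ∈ Submodule.span K b := by rw [hbspan]; trivial
    induction hg using Submodule.span_induction with
    | mem w hw =>
      have := congrFun ha ⟨w, hw⟩
      exact congrArg Subtype.val this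
    | zero => rw [mul_zero, map_zero]
    | add x y _ _ hx hy => rw [mul_add, map_add, hx, hy, add_zero]
    | smul c x _ hx => rw [mul_smul_comm, map_smul, hx, smul_zero]
  have hΛfin : Finite Λ := Finite.of_injective Ψ hΨ
  have hΛrank : finrank k' Λ ≤ n := by
    have := LinearMap.finrank_le_finrank_of_injective hΨ
    rwa [Module.finrank_fintype_fun_eq_card, hbcard] at this
  have hSΛ : ∀ g ∈ S ^ n, ρ g ∈ Λ := by
    intro g hg w hw
    obtain ⟨g', hg', rfl⟩ := hb hw
    rw [← map_mul]
    refine trace_mem _ k' (heig _ ?_)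
    rw [two_mul, pow_add]
    exact Set.mul_mem_mul hg hg'
  set E' : Submodule k' (Module.End K V) := Submodule.span k' (ρ '' S) with hE'
  have hEpow' : ∀ l : ℕ, E' ^ l = Submodule.span k' (ρ '' (S ^ l)) := by
    intro l
    rw [hE', Submodule.span_pow, himg]
  have hE1' : 1 ≤ E' := by
    rw [Submodule.one_le]
    exact Submodule.subset_span h1T
  obtain ⟨i, hi, hi2⟩ := chain (fun l : ℕ => E' ^ l) (pow_mono' hE1') (by
    show E' ^ 0 ≠ ⊥
    rw [pow_zero]
    exact one_ne_zero) n Λ (by
      intro l hl
      show E' ^ l ≤ Λ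
      rw [hEpow', Submodule.span_le]
      rintro _ ⟨g, hg, rfl⟩
      exact hSΛ g (hSmono hl hg)) hΛrank
  refine (Set.toFinite (Λ : Set (Module.End K V))).subset ?_
  rintro _ ⟨g, rfl⟩
  obtain ⟨l, hl⟩ := hgen g
  have h3 : ρ g ∈ E' ^ (i + l) := by
    rw [hEpow']
    exact Submodule.subset_span ⟨g, hSmono (Nat.le_add_left l i) hl, rfl⟩
  rw [pow_stab hi2, hEpow'] at h3
  refine (Submodule.span_le.2 ?_) h3
  rintro _ ⟨g, hg, rfl⟩
  exact hSΛ g (hSmono hi.le hg)

end Pool.Agent.Helper56.UD
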