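import Pool.Agent.Helper80.AT.Geo

/-! Poles of the coefficients of characteristic polynomials. -/

open Polynomial
open Pool.Agent.Helper80.AT

namespace Pool.Agent.Helper56.UD

variable {F : Type} [Field F] (X : Places F)

/-- the coefficients have poles of order at most n at v -/
def PB (v : X.V) (n : ℕ) (q : F[X]) : Prop := ∀ i, X.pole v (q.coeff i) ≤ n

variable {X} {v : X.V}

lemma PB.mono {m n : ℕ} {q : F[X]} (h : PB X v m q) (hmn : m ≤ n) : PB X v n q :=
  fun i => (h i).trans hmn

lemma PB.mul {m n : ℕ} {q r : F[X]} (hq : PB X v m q) (hr : PB X v n r) :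
    PB X v (m + n) (q * r) := by
  intro i
  rw [coeff_mul]
  refine X.pole_sum_le _ v _ _ fun x _ => ?_
  exact (X.pole_mul_le v _ _).trans (Nat.add_le_add (hq _) (hr _))

lemma PB.sum {ι : Type*} (s : Finset ι) {n : ℕ} {f : ι → F[X]} (h : ∀ i ∈ s, PB X v n (f i)) :
    PB X v n (∑ i ∈ s, f i) := by
  intro j
  rw [finsetSum_coeff, X.pole_le_iff]
  exact Valuation.map_sum_le _ fun i hi => (X.pole_le_iff v _ _).1 (h i hi j)

lemma PB.one : PB X v 0 (1 : F[X]) := by
  intro i
  rw [coeff_one]
  split_ifs <;> simp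

lemma PB.prod {ι : Type*} (s : Finset ι) {n : ℕ} {f : ι → F[X]} (h : ∀ i ∈ s, PB X v n (f i)) :
    PB X v (s.card * n) (∏ i ∈ s, f i) := by
  classical
  induction s using Finset.induction_on with
  | empty =>
    rw [Finset.prod_empty, Finset.card_empty, zero_mul]
    exact PB.one
  | insert i s hi ih =>
    rw [Finset.prod_insert hi, Finset.card_insert_of_notMem hi]
    refine ((h i (by simp)).mul (ih fun j hj => h j (by simp [hj]))).mono ?_
    rw [add_mul, one_mul, add_comm]

lemma pole_neg (f : F) : X.pole v (-f) = X.pole v f := by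
  unfold Places.pole
  rw [Valuation.map_neg]

lemma charpoly_pole {N n : ℕ} (M : Matrix (Fin N) (Fin N) F) (h : ∀ i j, X.pole v (M i j) ≤ n) :
    PB X v (N * n) M.charpoly := by
  have hent : ∀ i j, PB X v n (M.charmatrix i j) := by
    intro i j k
    rw [Matrix.charmatrix_apply, coeff_sub, Matrix.diagonal_apply]
    rw [X.pole_le_iff]
    refine (Valuation.map_sub _ _ _).trans (max_le ?_ ?_)
    · rw [← X.pole_le_iff]
      split_ifs
      · rw [coeff_X]
        split_ifs <;> simp
      · simp
    · rw [← X.pole_le_iff, coeff_C]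
      split_ifs
      · exact h i j
      · simp
  unfold Matrix.charpoly
  rw [Matrix.det_apply]
  refine PB.sum _ fun σ _ => ?_
  have h1 := PB.prod (Finset.univ : Finset (Fin N)) (f := fun i => M.charmatrix (σ i) i)
    (fun i _ => hent (σ i) i)
  rw [Finset.card_univ, Fintype.card_fin] at h1
  intro k
  rcases Int.units_eq_one_or (Equiv.Perm.sign σ) with hs | hs
  · rw [hs, one_smul]
    exact h1 k
  · rw [hs]
    have : ((-1 : ℤˣ) • ∏ i, M.charmatrix (σ i) i) = - ∏ i, M.charmatrix (σ i) i := by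
      rw [Units.smul_def]
      simp
    rw [this, coeff_neg, pole_neg]
    exact h1 k

variable {N : ℕ} {Γ : Subgroup (GL (Fin N) F)}

/-- The poles of the coefficients of the characteristic polynomial of a meromorphic
automorphism. -/
lemma charpoly_dist (P : Bundle X Γ) (g : Γ) (v : X.V) :
    PB X v (N * X.d v ((g • P).c v) (P.c v))
      (((g : GL (Fin N) F) : Matrix (Fin N) (Fin N) F)).charpoly := by
  set a := (P.c v).out with ha
  have h1 : X.d v ((g • P).c v) (P.c v) = X.size v (((a⁻¹ * g * a : Γ)) : GL (Fin N) F) := by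
    have h2 : (g • P).c v = ((g * a : Γ) : Γ ⧸ X.K Γ v) := by
      rw [Pool.Agent.Helper80.AT.smul_apply]
      conv_lhs => rw [← QuotientGroup.out_eq' (P.c v)]
      rfl
    have h3 : P.c v = ((a : Γ) : Γ ⧸ X.K Γ v) := (QuotientGroup.out_eq' (P.c v)).symm
    rw [h2]
    conv_lhs => rw [h3]
    rw [d_mk, ← X.size_inv, ← InvMemClass.coe_inv]
    congr 2
    group
  rw [h1]
  have h4 : (((g : GL (Fin N) F) : Matrix (Fin N) (Fin N) F)).charpoly =
      ((((a⁻¹ * g * a : Γ)) : GL (Fin N) F) : Matrix (Fin N) (Fin N) F).charpoly := by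
    have e : (((a⁻¹ * g * a : Γ)) : GL (Fin N) F) =
        (a : GL (Fin N) F)⁻¹ * (g : GL (Fin N) F) * (a : GL (Fin N) F) := rfl
    rw [e, Units.val_mul, Units.val_mul]
    rw [Matrix.coe_units_inv, Matrix.charpoly_units_conj']
  rw [h4]
  exact charpoly_pole _ fun i j => ((X.size_le_iff v _ _).1 le_rfl).1 i j

end Pool.Agent.Helper56.UD
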