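import Pool.Agent.Helper56.UD.Ind
import Pool.Agent.Helper56.UD.Fld
import Pool.Agent.Helper56.UD.Pole
import Pool.Agent.Helper56.UD.Defs

/-! The Margulis lemma for bundles: meromorphic automorphisms with few poles generate a finite
group. -/

open scoped Pointwise
open Module
open Pool.Agent.Helper80.AT

namespace Pool.Agent.Helper56.UD

variable {F : Type} [Field F] {X : Places F} {N : ℕ} {Γ : Subgroup (GL (Fin N) F)}

lemma one_mem_close (B : Set X.V) (P : Bundle X Γ) (n : ℕ) : (1 : Γ) ∈ CloseAut B P n := by
  refine ⟨?_, fun v _ => ?_⟩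
  · rw [one_smul, Helper80.AT.dist_self]
    exact Nat.zero_le n
  · rw [one_smul]

lemma mul_mem_close {B : Set X.V} {P : Bundle X Γ} {m n : ℕ} {g h : Γ}
    (hg : g ∈ CloseAut B P m) (hh : h ∈ CloseAut B P n) : g * h ∈ CloseAut B P (m + n) := by
  refine ⟨?_, fun v hv => ?_⟩
  · rw [mul_smul]
    refine (Helper80.AT.dist_triangle X _ (g • P) _).trans ?_
    rw [Helper80.AT.dist_smul]
    have h1 := hg.1
    have h2 := hh.1
    omega
  · rw [mul_smul]
    show g • (h • P).c v = P.c v
    rw [hh.2 v hv]
    exact hg.2 v hv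

lemma inv_mem_close {B : Set X.V} {P : Bundle X Γ} {n : ℕ} {g : Γ}
    (hg : g ∈ CloseAut B P n) : g⁻¹ ∈ CloseAut B P n := by
  refine ⟨?_, fun v hv => ?_⟩
  · rw [← Helper80.AT.dist_smul X g, smul_inv_smul, Helper80.AT.dist_comm]
    exact hg.1
  · have h1 := hg.2 v hv
    show g⁻¹ • P.c v = P.c v
    rw [inv_smul_eq_iff]
    exact h1.symm

lemma pow_mem_close {B : Set X.V} {P : Bundle X Γ} {n : ℕ} (l : ℕ) {g : Γ}
    (hg : g ∈ CloseAut B P n ^ l) : g ∈ CloseAut B P (l * n) := by
  induction l generalizing g with
  | zero =>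
    rw [pow_zero, Set.mem_one] at hg
    rw [hg]
    exact one_mem_close B P _
  | succ l ih =>
    rw [pow_succ] at hg
    obtain ⟨a, ha, b, hb, rfl⟩ := hg
    have := mul_mem_close (ih ha) hb
    rwa [add_mul, one_mul]

/-- The constants. -/
def consts (X : Places F) : Set F := {f | ∀ v, X.pole v f = 0}

lemma consts_fin (X : Places F) : (consts X).Finite := by
  refine (X.sections_fin 0).subset ?_
  intro f hf v
  rw [← X.pole_le_iff]
  exact (hf v).le

lemma consts_pow (X : Places F) {c : F} (hc : c ∈ consts X) (n : ℕ) : c ^ n ∈ consts X := by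
  induction n with
  | zero =>
    rw [pow_zero]
    intro v
    simp
  | succ n ih =>
    rw [pow_succ]
    intro v
    have := X.pole_mul_le v (c ^ n) c
    rw [ih v, hc v] at this
    omega

lemma char_ne_zero (X : Places F) (p : ℕ) [CharP F p] : p ≠ 0 := by
  intro hp
  subst hp
  have : CharZero F := CharP.charP_to_charZero F
  have hinj : Function.Injective (fun n : ℕ => (n : F)) := Nat.cast_injective
  refine Set.infinite_of_injective_forall_mem hinj (s := consts X) ?_ (consts_fin X)
  intro n v
  apply Nat.le_zero.1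
  rw [X.pole_le_iff]
  have h1 : ((n : F)) = ∑ _i ∈ Finset.range n, (1 : F) := by simp
  rw [h1]
  exact Valuation.map_sum_le _ fun i _ => by simp

/-- the coefficients of the characteristic polynomial of a close automorphism -/
lemma charpoly_const {B : Set X.V} {m : ℕ} (hB : GonOn X B (N * m)) {P : Bundle X Γ} {g : Γ}
    (hg : g ∈ CloseAut B P m) (i : ℕ) :
    (((g : GL (Fin N) F) : Matrix (Fin N) (Fin N) F)).charpoly.coeff i ∈ consts X := by
  set f := (((g : GL (Fin N) F) : Matrix (Fin N) (Fin N) F)).charpoly.coeff i with hf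
  have h1 : ∀ v, X.pole v f ≤ N * X.d v ((g • P).c v) (P.c v) := fun v => charpoly_dist P g v i
  refine hB f ?_ ?_
  · refine le_trans ?_ (Nat.mul_le_mul_left N hg.1)
    rw [Helper80.AT.dist_eq]
    unfold Places.poles ddeg
    have hfs : (Function.support fun v => X.deg v * X.pole v f) ⊆
        (ddiv X (g • P) P).support := by
      intro v hv
      simp only [Function.mem_support, ne_eq, mul_eq_zero, not_or] at hv
      simp only [Finset.mem_coe, Finsupp.mem_support_iff, ne_eq]
      show ¬ X.d v _ _ = 0
      intro h0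
      have := h1 v
      rw [h0, mul_zero] at this
      omega
    rw [finsum_eq_sum_of_support_subset _ hfs]
    unfold Finsupp.sum
    rw [Finset.mul_sum]
    refine Finset.sum_le_sum fun v _ => ?_
    rw [mul_left_comm]
    exact Nat.mul_le_mul_left _ (h1 v)
  · intro v hv
    have := h1 v
    rw [hg.2 v hv, d_self, mul_zero] at this
    omega

/-- the action of the matrices on a vector space over the algebraic closure -/
noncomputable def toEnd (K : Type) [Field K] [Algebra F K] (N : ℕ) :
    GL (Fin N) F →* Module.End K (Fin N → K) where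
  toFun g := Matrix.toLin' ((g : Matrix (Fin N) (Fin N) F).map (algebraMap F K))
  map_one' := by
    rw [Units.val_one, Matrix.map_one _ (map_zero _) (map_one _), Matrix.toLin'_one]
    rfl
  map_mul' g h := by
    rw [Units.val_mul, Matrix.map_mul, Matrix.toLin'_mul]
    rfl

lemma toEnd_inj (K : Type) [Field K] [Algebra F K] (N : ℕ) :
    Function.Injective (toEnd (F := F) K N) := by
  intro g h hgh
  have h1 := Matrix.toLin'.injective hgh
  apply Units.ext
  exact Matrix.map_injective (algebraMap F K).injective h1

lemma toEnd_charpoly (K : Type) [Field K] [Algebra F K] (N : ℕ) (g : GL (Fin N) F) :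
    (toEnd K N g).charpoly = ((g : Matrix (Fin N) (Fin N) F)).charpoly.map (algebraMap F K) := by
  have h1 : toEnd K N g =
      Matrix.toLin' ((g : Matrix (Fin N) (Fin N) F).map (algebraMap F K)) := rfl
  rw [h1, Matrix.charpoly_toLin', ← Matrix.charpoly_map]

/-- The Margulis lemma for bundles. -/
theorem margulis {B : Set X.V} {n : ℕ} (hB : GonOn X B (2 * N ^ 3 * n)) (P : Bundle X Γ) :
    Finite (Subgroup.closure (CloseAut B P n)) := by
  classical
  set S := CloseAut B P n with hS
  have hSfin : S.Finite := (near_fin X P n).subset fun g hg => hg.1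
  set G := Subgroup.closure S with hG
  have hFG : Group.FG G := by
    have := hSfin.to_subtype
    exact Group.closure_finite_fg S
  obtain ⟨p, hp⟩ := CharP.exists F
  have hp0 : p ≠ 0 := char_ne_zero X p
  obtain ⟨k', hk', hroot⟩ := fin_subfield p hp0 (consts X) (consts_fin X)
    (fun c hc n => consts_pow X hc n) N
  set K := AlgebraicClosure F with hK
  have hKp : CharP K p := charP_of_injective_algebraMap (algebraMap F K).injective p
  set ρ : G →* Module.End K (Fin N → K) := (toEnd K N).comp (Γ.subtype.comp G.subtype) with hρ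
  have hρinj : Function.Injective ρ := by
    intro g h hgh
    exact Subtype.ext (Subtype.ext (toEnd_inj K N hgh))
  set S' : Set G := (fun x : G => (x : Γ)) ⁻¹' S with hS'
  have hmap : ∀ l : ℕ, ∀ g ∈ S' ^ l, (g : Γ) ∈ S ^ l := by
    intro l g hg
    have h1 : G.subtype '' (S' ^ l) = (G.subtype '' S') ^ l := Set.image_pow _ _ _
    have h2 : (g : Γ) ∈ (G.subtype '' S') ^ l := by
      rw [← h1]
      exact ⟨g, hg, rfl⟩
    refine Set.pow_subset_pow_left ?_ h2
    rintro _ ⟨x, hx, rfl⟩
    exact hx
  have hfin : (Set.range ρ).Finite := by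
    refine fin_image p hp0 S' (one_mem_close B P n) ?_ k' N N (Fin N → K) ρ (Module.finrank_fin_fun K) le_rfl ?_
    · intro g
      have hg : g ∈ Subgroup.closure S' := by
        rw [hS', Subgroup.closure_closure_coe_preimage]
        trivial
      have h1 : (1 : G) ∈ S' := one_mem_close B P n
      induction hg using Subgroup.closure_induction with
      | mem x hx => exact ⟨1, by rwa [pow_one]⟩
      | one => exact ⟨0, by rw [pow_zero]; exact Set.mem_one.2 rfl⟩
      | mul x y _ _ hx hy =>
        obtain ⟨l, hl⟩ := hx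
        obtain ⟨m, hm⟩ := hy
        exact ⟨l + m, by rw [pow_add]; exact Set.mul_mem_mul hl hm⟩
      | inv x _ hx =>
        obtain ⟨l, hl⟩ := hx
        refine ⟨l, ?_⟩
        have h2 : S'⁻¹ ⊆ S' := by
          intro y hy
          have h3 : ((y⁻¹ : G) : Γ) ∈ S := hy
          have h4 := inv_mem_close h3
          rw [InvMemClass.coe_inv, inv_inv] at h4
          exact h4
        refine Set.pow_subset_pow_left h2 ?_
        rw [inv_pow]
        exact Set.inv_mem_inv.2 hl
    · intro g hg μ hμ
      have h1 := pow_mem_close _ (hmap _ g hg)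
      have hB' : GonOn X B (N * (2 * N ^ 2 * n)) := by
        have : N * (2 * N ^ 2 * n) = 2 * N ^ 3 * n := by ring
        rwa [this]
      have h2 := charpoly_const hB' h1
      rw [Module.End.hasEigenvalue_iff_isRoot_charpoly] at hμ
      refine hroot _ (Matrix.charpoly_monic _) ?_ h2 μ ?_
      · rw [Matrix.charpoly_natDegree_eq_dim, Fintype.card_fin]
      · have h3 : (ρ g).charpoly =
            ((((g : Γ) : GL (Fin N) F) : Matrix (Fin N) (Fin N) F)).charpoly.map
              (algebraMap F K) := toEnd_charpoly K N _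
        rw [h3] at hμ
        exact hμ
  have := hfin.to_subtype
  exact Finite.of_injective (fun g : G => (⟨ρ g, g, rfl⟩ : Set.range ρ)) fun g h hgh =>
    hρinj (congrArg Subtype.val hgh)

end Pool.Agent.Helper56.UD
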