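import Pool.Agent.Helper56.UD.Fam
import Pool.Agent.Helper56.UD.Marg

/-! The uniform density theorem. -/

open scoped ENNReal NNReal InnerProductSpace
open MeasureTheory
open Pool.Agent.Helper80.AT

namespace Pool.Agent.Helper56.UD

variable {F : Type} [Field F] {X : Places F} {N : ℕ} {Γ : Subgroup (GL (Fin N) F)}

/-- The points at distance at most R from P₀ that agree with P₀ outside B. -/
def ball (B : Set X.V) (P₀ : Bundle X Γ) (R : ℕ) : Set (Bundle X Γ) :=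
  {Q | X.dist P₀ Q ≤ R ∧ ∀ y, y ∉ B → P₀.c y = Q.c y}

lemma ball_sep {B : Set X.V} {P₀ : Bundle X Γ} {R : ℕ} {Q : Bundle X Γ} {g : Γ}
    (hQ : Q ∈ ball B P₀ R) (hg : g • Q ∈ ball B P₀ R) : g ∈ CloseAut B P₀ (2 * R) := by
  refine ⟨?_, fun y hy => ?_⟩
  · refine (Helper80.AT.dist_triangle X _ (g • Q) _).trans ?_
    rw [Helper80.AT.dist_smul, Helper80.AT.dist_comm X (g • Q)]
    have h1 := hQ.1
    have h2 := hg.1
    omega
  · show g • P₀.c y = P₀.c y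
    rw [hQ.2 y hy]
    exact (hg.2 y hy).symm.trans (hQ.2 y hy)

variable {J : Type} [Fintype J] (L : J → List (Hecke X Γ)) (D : ℕ) (hD : ∀ j, wordSize (L j) ≤ D)
    (W : Submodule ℂ (L2 Γ (Bundle X Γ))) (hW : ∀ j, ∀ T ∈ L j, Stable W T.op) (A : ℝ)
    (hA : 0 < A) (hlow : ∀ w ∈ W, A ^ 2 * ‖w‖ ^ 2 ≤ ∑ j, ‖wordOp (L j) w‖ ^ 2)
    (s : ℝ) (hs : 1 ≤ s) (hsA : (∑ j, wordNorm (L j) ^ 2) * (s + s⁻¹) ^ 2 ≤ 4 * A ^ 2)
    (B : Set X.V) (hLB : ∀ j, ∀ T ∈ L j, T.x ∈ B)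

include hD hW hA hlow hs hsA hLB in
theorem ud_ball (P₀ : Bundle X Γ) (m R : ℕ)
    (hΦ : Finite (Subgroup.closure (CloseAut B P₀ (2 * (R + m * D)))))
    (S : Finset (Bun Γ (Bundle X Γ))) (hS : NearIn B P₀ R S)
    (w : L2 Γ (Bundle X Γ)) (hw : w ∈ W) :
    ((s ^ m + s⁻¹ ^ m) / 2) ^ 2 * ∑ b ∈ S, mass b * ‖w b‖ ^ 2 ≤ ‖w‖ ^ 2 := by
  classical
  set Φ := Subgroup.closure (CloseAut B P₀ (2 * (R + m * D))) with hΦdef
  have hΦt : Fintype Φ := Fintype.ofFinite Φ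
  obtain ⟨J', hJ', f₁, f, hmem, htri, hst, hup, hlo⟩ :=
    ch_family' L D hD W hW A hA hlow s hs hsA (goodAlg B P₀ Φ)
      (fun j => word_mem B P₀ Φ (L j) (hLB j)) P₀ m
  set C := (s ^ m + s⁻¹ ^ m) / 2 with hC
  set u := cut S w with hu
  set B₀ : Set (Bundle X Γ) := ball B P₀ R with hB₀
  have hBf : ∀ P, {g : Γ | g • P ∈ B₀}.Finite := fun P =>
    (mult_le P₀ R P).1.subset fun g hg => hg.1
  set v := lift Γ B₀ (u : Bun Γ (Bundle X Γ) → ℂ) with hv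
  have h3 := lift_sq_le hBf (u : Bun Γ (Bundle X Γ) → ℂ) 1 (fun Q hQ => by
    refine (Set.ncard_pos (hBf Q)).2 ⟨1, ?_⟩
    show (1 : Γ) • Q ∈ B₀
    rw [one_smul]
    exact hQ)
  have hfinv : ∑' Q, ‖v Q‖ₑ ^ 2 ≠ ∞ := by
    intro h0
    rw [← hv, h0, ENNReal.mul_top (by simp)] at h3
    exact nsq_ne_top u (top_le_iff.1 h3)
  set x := ofFn v hfinv with hx
  have hev : ev x = v := ev_ofFn v hfinv
  have hvB : ∀ Q, v Q ≠ 0 → Q ∈ B₀ := fun Q hQ => lift_ne hQ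
  have hper : (u : Bun Γ (Bundle X Γ) → ℂ) = per Γ (ev x) := by
    rw [hev, hv, per_lift hBf]
    intro b hb
    rw [hu, cut_apply] at hb
    by_cases hbS : b ∈ S
    · obtain ⟨Q, h1, h2, h4⟩ := hS b hbS
      exact ⟨Q, ⟨h1, h2⟩, h4⟩
    · rw [if_neg hbS] at hb
      exact absurd rfl hb
  have hrel : Rel P₀ R x u := by
    refine ⟨fun Q hQ => ?_, hper⟩
    rw [hev] at hQ
    exact (hvB Q hQ).1
  have hoff : Off B P₀ (ev x) := by
    intro Q hQ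
    rw [hev] at hQ
    exact (hvB Q hQ).2
  have hcard : (0 : ℝ) < Fintype.card Φ := by
    exact_mod_cast Fintype.card_pos
  have hsep : ∀ (x' : L2 TG (Bundle X Γ)), (∀ Q, ev x' Q ≠ 0 → Q ∈ ball B P₀ (R + m * D)) →
      ∀ (Q : Bundle X Γ) (g : Γ), ev x' Q ≠ 0 → ev x' (g • Q) ≠ 0 → g ∈ Φ := by
    intro x' hx' Q g h1 h2
    exact Subgroup.subset_closure (ball_sep (hx' Q h1) (hx' _ h2))
  have hux : ‖av Φ x‖ ^ 2 = Fintype.card Φ * ‖u‖ ^ 2 := by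
    refine norm_av Φ x u hper (hsep x fun Q hQ => ?_)
    rw [hev] at hQ
    exact ⟨(hvB Q hQ).1.trans (Nat.le_add_right _ _), (hvB Q hQ).2⟩
  have hj : ∀ j, Fintype.card Φ * ‖f j u‖ ^ 2 = ‖f₁ j (av Φ x)‖ ^ 2 := by
    intro j
    have hr := htri j R x u hrel
    have h4 := norm_av Φ (f₁ j x) (f j u) hr.eq (hsep _ fun Q hQ =>
      ⟨hr.supp Q hQ, (hmem j).2 x hoff Q hQ⟩)
    rw [← h4]
    have h5 : av Φ (f₁ j x) = f₁ j (av Φ x) :=
      congrArg (fun T : L2 TG (Bundle X Γ) →L[ℂ] L2 TG (Bundle X Γ) => T x) (hmem j).1.eq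
    rw [h5]
  have hsum : ∑ j, ‖f j u‖ ^ 2 ≤ ‖u‖ ^ 2 := by
    have h4 := hup (av Φ x)
    rw [hux] at h4
    simp only [← hj] at h4
    rw [← Finset.mul_sum] at h4
    exact le_of_mul_le_mul_left h4 hcard
  have h5 := hilb_eval f hst C hlo hw u
  have h6 : ‖⟪w, u⟫_ℂ‖ = ‖u‖ ^ 2 := by
    rw [hu, cut_inner, norm_pow, Complex.norm_real, norm_norm]
  rw [h6] at h5
  rw [← cut_norm_sq, ← hu]
  rcases (norm_nonneg u).eq_or_lt with h0 | h0
  · rw [← h0]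
    have : 0 ≤ ‖w‖ ^ 2 := by positivity
    simpa using this
  · have h7 : (C ^ 2 * ‖u‖ ^ 2) * ‖u‖ ^ 2 ≤ ‖w‖ ^ 2 * ‖u‖ ^ 2 := by
      calc (C ^ 2 * ‖u‖ ^ 2) * ‖u‖ ^ 2 = C ^ 2 * (‖u‖ ^ 2) ^ 2 := by ring
        _ ≤ (∑ j, ‖f j u‖ ^ 2) * ‖w‖ ^ 2 := h5
        _ ≤ ‖u‖ ^ 2 * ‖w‖ ^ 2 := by gcongr
        _ = _ := by ring
    exact le_of_mul_le_mul_right h7 (by positivity)

theorem uniform_main {J : Type} [Fintype J] {W : Submodule ℂ (Classes X Γ → ℂ)}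
    {L : J → List (Hecke X Γ)} {D : ℕ} (hD : ∀ j, wordSize (L j) ≤ D) {A : ℝ}
    (hW : Bounded W L A) {s : ℝ} (hs : 1 ≤ s)
    (hsA' : (∑ j, wordNorm (L j) ^ 2) * ((s + s⁻¹) / 2) ^ 2 ≤ A ^ 2) (B : Set X.V)
    (hLB : ∀ j, ∀ T ∈ L j, T.x ∈ B) (m : ℕ) :
    (∀ (P₀ : Bundle X Γ) (R : ℕ),
      Finite (Subgroup.closure (CloseAut B P₀ (2 * (R + m * D)))) →
      ∀ S : Finset (Classes X Γ), NearIn B P₀ R S → ∀ w ∈ W,
        massOn S w ≤ (2 / (s ^ m + s⁻¹ ^ m)) ^ 2 * sqNorm w) ∧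
    (∀ R : ℕ, GonOn X B (4 * N ^ 3 * (R + m * D)) → ∀ P₀ : Bundle X Γ,
      Finite (Subgroup.closure (CloseAut B P₀ (2 * (R + m * D))))) ∧
    (GonOn X B (4 * N ^ 3 * (m * D)) → ∀ S : Finset (Classes X Γ),
      TraceLe W S ((2 / (s ^ m + s⁻¹ ^ m)) ^ 2 * S.card)) := by
  have hs0 : 0 < s := by linarith
  have hA := hW.pos
  have hsA : (∑ j, wordNorm (L j) ^ 2) * (s + s⁻¹) ^ 2 ≤ 4 * A ^ 2 := by
    have h1 : (∑ j, wordNorm (L j) ^ 2) * (s + s⁻¹) ^ 2 =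
        4 * ((∑ j, wordNorm (L j) ^ 2) * ((s + s⁻¹) / 2) ^ 2) := by ring
    rw [h1]
    linarith
  have hst : ∀ j, ∀ T ∈ L j, Stable (up W) T.op := by
    intro j T hT
    constructor
    · intro u hu
      rw [mem_up, coe_op]
      exact (hW.stable j T hT _ hu).1
    · intro u hu
      rw [mem_up, coe_adjoint]
      exact (hW.stable j T hT _ hu).2
  have hlow' : ∀ u ∈ up W, A ^ 2 * ‖u‖ ^ 2 ≤ ∑ j, ‖wordOp (L j) u‖ ^ 2 := by
    intro u hu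
    have h : A ^ 2 * nrm (u : Bun Γ (Bundle X Γ) → ℂ) ≤
      ∑ j, nrm (wordFn (L j) (u : Bun Γ (Bundle X Γ) → ℂ)) := hW.lower _ hu
    rw [nrm_coe] at h
    refine h.trans (le_of_eq ?_)
    refine Finset.sum_congr rfl fun j _ => ?_
    rw [← coe_word, nrm_coe]
  have hC : 0 < s ^ m + s⁻¹ ^ m := by positivity
  have hmarg : ∀ R : ℕ, GonOn X B (4 * N ^ 3 * (R + m * D)) → ∀ P₀ : Bundle X Γ,
      Finite (Subgroup.closure (CloseAut B P₀ (2 * (R + m * D)))) := by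
    intro R hgon P₀
    have hgon' : GonOn X B (2 * N ^ 3 * (2 * (R + m * D))) := by
      have : 2 * N ^ 3 * (2 * (R + m * D)) = 4 * N ^ 3 * (R + m * D) := by ring
      rwa [this]
    exact margulis hgon' P₀
  have hmain : ∀ (P₀ : Bundle X Γ) (R : ℕ),
      Finite (Subgroup.closure (CloseAut B P₀ (2 * (R + m * D)))) →
      ∀ S : Finset (Classes X Γ), NearIn B P₀ R S → ∀ w ∈ W,
        massOn S w ≤ (2 / (s ^ m + s⁻¹ ^ m)) ^ 2 * sqNorm w := by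
    intro P₀ R hfin S hS w hw
    have hwl := hW.l2 w hw
    set u : L2 Γ (Bundle X Γ) := hwl.memLp.toLp w with hu
    have hcoe : (u : Bun Γ (Bundle X Γ) → ℂ) = w := coe_toLp' hwl
    have huW : u ∈ up W := by rw [mem_up, hcoe]; exact hw
    have h := ud_ball L D hD (up W) hst A hA hlow' s hs hsA B hLB P₀ m R hfin S hS u huW
    rw [← nrm_coe, hcoe] at h
    show ∑ b ∈ S, mass b * ‖w b‖ ^ 2 ≤ _ * nrm w
    rw [mul_comm] at h
    have h5 := (le_div_iff₀ (by positivity)).2 h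
    refine h5.trans (le_of_eq ?_)
    field_simp
  refine ⟨hmain, hmarg, fun hgon S => ?_⟩
  have hcard : autOn S 0 = S.card := by
    unfold autOn
    rw [Finset.sum_congr rfl (g := fun _ => (1 : ℝ)), Finset.sum_const, nsmul_eq_mul, mul_one]
    intro b _
    rw [autNum_zero]
    have hc : (0 : ℝ) < Nat.card (MulAction.stabilizer Γ b.out) := by exact_mod_cast Nat.card_pos
    have e : mass b = 1 / Nat.card (MulAction.stabilizer Γ b.out) := rfl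
    rw [e]
    field_simp
  rw [← hcard]
  refine traceLe_of_point hW.l2 _ (by positivity) 0 ?_ S
  intro b w hw
  have h := hmain b.out 0 (hmarg 0 (by rwa [zero_add]) b.out) {b} (by
    intro b' hb'
    rw [Finset.mem_singleton] at hb'
    subst hb'
    exact ⟨b'.out, by rw [Helper80.AT.dist_self], fun _ _ => rfl, cls_out b'⟩) w hw
  unfold massOn at h
  rw [Finset.sum_singleton] at h
  have hc : (0 : ℝ) < Nat.card (MulAction.stabilizer Γ b.out) := by exact_mod_cast Nat.card_pos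
  have e : mass b = 1 / Nat.card (MulAction.stabilizer Γ b.out) := rfl
  rw [e, div_mul_eq_mul_div, one_mul, div_le_iff₀ hc] at h
  rw [autNum_zero]
  refine h.trans (le_of_eq ?_)
  ring

end Pool.Agent.Helper56.UD
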